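import Pool.Agent.Y997.NW.Defs
import Pool.Agent.Y997.NW.C2
import Pool.Agent.Y259.NW.LINE
import Pool.Agent.Y693.NW.DICH
import Pool.Agent.Y369.NW.ZERO
import Pool.Agent.Y309.NW.LOW
import Pool.Agent.Y814.NW.CUR
import Pool.Agent.Y420.NW.SEQ
import Pool.Agent.Y903.NW.OFF
import Pool.Agent.Y929.NW.ON1

set_option autoImplicit false

open Pool.Agent.W581.Sullivan Pool.Agent.Y997.NW.Tr

namespace Pool.Agent.Results.MP_65ddbc_gt.DenseNowhereAverage

/-- A negative answer to Q1 in a strong form, on the compact complex torus `M = ℂ² / ℤ[i]²` (and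
`k = 1`). For every countable set `A` of complex cycles (for instance `A = ∅`) there is a complex
cycle `e` of mass at most one such that `e`, and also `c + t e` for every `c ∈ A` and every real
`t > 0`, is a complex cycle which for NO nonempty open subset `U` of `M` is an average of irreducible
closed analytic subvarieties of `U`, for any measure on any σ-algebra; not even its mass measure is
an average of area measures of such subvarieties. In particular the local representation of these
cycles fails at every point of `M`, and the complex cycles for which this happens are dense in the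
set of all complex cycles, for the mass norm. -/
theorem result (A : Set ((C2 → C2 [⋀^Fin 2]→L[ℝ] ℝ) → ℝ)) (hA : A.Countable)
    (h0 : ∀ c ∈ A, IsComplexCycle gaussLattice c) :
    ∃ e : (C2 → C2 [⋀^Fin 2]→L[ℝ] ℝ) → ℝ, IsComplexCycle gaussLattice e ∧
      (∀ α, IsForm gaussLattice α → ∀ B : ℝ, (∀ z, ‖α z‖ ≤ B) → |e α| ≤ B) ∧
      NowhereAverage e ∧
      ∀ c ∈ A, ∀ t : ℝ, 0 < t → IsComplexCycle gaussLattice (fun α => c α + t * e α) ∧
        NowhereAverage (fun α => c α + t * e α) :=
  dense_mass Pool.Agent.Y259.NW.t_LINE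
    (Pool.Agent.Y369.NW.t_ZERO Pool.Agent.Y693.NW.t_DICH) Pool.Agent.Y309.NW.t_LOW
    Pool.Agent.Y814.NW.t_CUR Pool.Agent.Y420.NW.t_SEQ Pool.Agent.Y903.NW.t_OFF
    Pool.Agent.Y903.NW.t_ON0 Pool.Agent.Y929.NW.t_ON1 Pool.Agent.Y929.NW.t_BD A hA h0

end Pool.Agent.Results.MP_65ddbc_gt.DenseNowhereAverage
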